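import Pool.Agent.H63.W1.GeoB

/-!
# The divisor bound for ideals and for factorisations in a box
-/

set_option autoImplicit false

namespace Pool.H63.W1

open NumberField NumberField.InfinitePlace NumberField.Units Module
open H88.A4 UniqueFactorizationMonoid

/-- the norm of the ideal of a natural number -/
theorem absNorm_nat (L : Type) [Field L] [NumberField L] (m : ℕ) :
    Ideal.absNorm (Ideal.span {(m : 𝓞 L)}) = m ^ finrank ℚ L := by
  rw [Ideal.absNorm_span_singleton, ← RingOfIntegers.rank L]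
  have h1 : ((m : ℕ) : 𝓞 L) = algebraMap ℤ (𝓞 L) (m : ℤ) := by simp
  rw [h1, Algebra.norm_algebraMap]
  simp

theorem two_le_absNorm (L : Type) [Field L] [NumberField L] {p : Ideal (𝓞 L)} (hp : Prime p) :
    2 ≤ Ideal.absNorm p := by
  have h0 : Ideal.absNorm p ≠ 0 := fun h => hp.ne_zero (Ideal.absNorm_eq_zero_iff.1 h)
  have h1 : Ideal.absNorm p ≠ 1 := fun h =>
    hp.not_isUnit (Ideal.isUnit_iff.2 (Ideal.absNorm_eq_one_iff.1 h))
  omega

/-- the number of primes of bounded norm, uniformly -/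
theorem primes_card (D B : ℕ) (L : Type) [Field L] [NumberField L] (hD : finrank ℚ L ≤ D)
    (P : Finset (Ideal (𝓞 L))) (hP : ∀ p ∈ P, Prime p ∧ Ideal.absNorm p ≤ B) :
    P.card ≤ (B.factorial) ^ D := by
  classical
  have h1 : ∏ p ∈ P, p ∣ Ideal.span {(B.factorial : 𝓞 L)} := by
    refine Finset.prod_primes_dvd _ (fun p hp => (hP p hp).1) fun p hp => ?_
    rw [Ideal.dvd_span_singleton]
    have h2 : ((Ideal.absNorm p : ℕ) : 𝓞 L) ∈ p := Ideal.absNorm_mem p
    have h3 : Ideal.absNorm p ∣ B.factorial :=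
      Nat.dvd_factorial (by have := two_le_absNorm L (hP p hp).1; omega) (hP p hp).2
    obtain ⟨c, hc⟩ := h3
    rw [hc, Nat.cast_mul]
    exact p.mul_mem_right _ h2
  have h2 : Ideal.absNorm (∏ p ∈ P, p) ∣ B.factorial ^ finrank ℚ L := by
    rw [← absNorm_nat]
    exact map_dvd Ideal.absNorm h1
  have h3 : Ideal.absNorm (∏ p ∈ P, p) ≤ B.factorial ^ finrank ℚ L :=
    Nat.le_of_dvd (pow_pos (Nat.factorial_pos _) _) h2
  have h4 : 2 ^ P.card ≤ Ideal.absNorm (∏ p ∈ P, p) := by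
    rw [map_prod, ← Finset.prod_const]
    exact Finset.prod_le_prod' fun p hp => two_le_absNorm L (hP p hp).1
  calc P.card ≤ 2 ^ P.card := Nat.lt_two_pow_self.le
    _ ≤ B.factorial ^ finrank ℚ L := h4.trans h3
    _ ≤ B.factorial ^ D := Nat.pow_le_pow_right (Nat.factorial_pos _) hD

/-- (F5) -/
theorem ideal_div (D : ℕ) (ε : ℝ) (hε : 0 < ε) : ∃ C : ℝ, 0 < C ∧
    ∀ (L : Type) [Field L] [NumberField L], Module.finrank ℚ L ≤ D →
    ∀ I : Ideal (𝓞 L), I ≠ ⊥ → ∀ S : Finset (Ideal (𝓞 L)), (∀ J ∈ S, J ∣ I) →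
      (S.card : ℝ) ≤ C * (Ideal.absNorm I : ℝ) ^ ε := by
  classical
  set C0 : ℝ := max 1 (ε * Real.log 2)⁻¹ with hC0
  have hl2 : 0 < Real.log 2 := Real.log_pos (by norm_num)
  have hC01 : 1 ≤ C0 := le_max_left _ _
  have hC02 : ∀ e : ℕ, ((e + 1 : ℕ) : ℝ) ≤ C0 * (2 : ℝ) ^ ((e : ℝ) * ε) := by
    intro e
    have h1 : 1 + (e : ℝ) * (ε * Real.log 2) ≤ (2 : ℝ) ^ ((e : ℝ) * ε) := by
      rw [Real.rpow_def_of_pos (by norm_num)]
      have := Real.add_one_le_exp (Real.log 2 * (e * ε))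
      nlinarith
    have h2 : (e : ℝ) ≤ C0 * (e * (ε * Real.log 2)) := by
      have h3 : (ε * Real.log 2)⁻¹ ≤ C0 := le_max_right _ _
      have h4 : 0 < ε * Real.log 2 := mul_pos hε hl2
      have h5 : (ε * Real.log 2)⁻¹ * (e * (ε * Real.log 2)) = e := by field_simp
      calc (e : ℝ) = (ε * Real.log 2)⁻¹ * (e * (ε * Real.log 2)) := h5.symm
        _ ≤ _ := mul_le_mul_of_nonneg_right h3 (by positivity)
    push_cast
    calc (e : ℝ) + 1 ≤ C0 * (1 + e * (ε * Real.log 2)) := by linarith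
      _ ≤ _ := mul_le_mul_of_nonneg_left h1 (by linarith)
  set B : ℕ := ⌊(2 : ℝ) ^ (ε⁻¹)⌋₊ with hB
  refine ⟨C0 ^ (B.factorial ^ D), by positivity, fun L _ _ hLD I hI S hS => ?_⟩
  set s := normalizedFactors I with hs
  have hJ0 : ∀ J ∈ S, J ≠ ⊥ := fun J hJ h => hI (by
    have := hS J hJ
    rw [h] at this
    exact zero_dvd_iff.1 this)
  have hcard : S.card ≤ (Finset.Iic s).card := by
    refine Finset.card_le_card_of_injOn (fun J => normalizedFactors J) (fun J hJ => ?_) ?_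
    · rw [Finset.mem_coe, Finset.mem_Iic]
      exact (dvd_iff_normalizedFactors_le_normalizedFactors (hJ0 J hJ) hI).1 (hS J hJ)
    · intro J hJ J' hJ' h
      have h1 : (normalizedFactors J).prod = (normalizedFactors J').prod := congrArg _ h
      rwa [Ideal.prod_normalizedFactors_eq_self (hJ0 J hJ),
        Ideal.prod_normalizedFactors_eq_self (hJ0 J' hJ')] at h1
  rw [Multiset.card_Iic] at hcard
  have hnorm : Ideal.absNorm I = ∏ p ∈ s.toFinset, Ideal.absNorm p ^ s.count p := by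
    conv_lhs => rw [← Ideal.prod_normalizedFactors_eq_self hI, Finset.prod_multiset_count]
    rw [map_prod]
    exact Finset.prod_congr rfl fun p _ => map_pow _ _ _
  have hpr : ∀ p ∈ s.toFinset, Prime p := fun p hp =>
    prime_of_normalized_factor p (Multiset.mem_toFinset.1 hp)
  have hterm : ∀ p ∈ s.toFinset, ((s.count p + 1 : ℕ) : ℝ) ≤
      (if Ideal.absNorm p ≤ B then C0 else 1) * ((Ideal.absNorm p : ℝ) ^ s.count p) ^ ε := by
    intro p hp
    have h2 : (2 : ℝ) ≤ Ideal.absNorm p := by exact_mod_cast two_le_absNorm L (hpr p hp)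
    have h3 : (((Ideal.absNorm p : ℕ) : ℝ) ^ s.count p) ^ ε =
        ((Ideal.absNorm p : ℕ) : ℝ) ^ ((s.count p : ℝ) * ε) := by
      rw [← Real.rpow_natCast, ← Real.rpow_mul (by linarith)]
    rw [h3]
    split_ifs with hpB
    · refine (hC02 _).trans (mul_le_mul_of_nonneg_left ?_ (by linarith))
      exact Real.rpow_le_rpow (by norm_num) h2 (by positivity)
    · rw [one_mul]
      have h4 : (2 : ℝ) ^ (ε⁻¹) ≤ Ideal.absNorm p := by
        have h5 : (2 : ℝ) ^ (ε⁻¹) < B + 1 := Nat.lt_floor_add_one _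
        have h6 : (B : ℝ) + 1 ≤ Ideal.absNorm p := by
          push Not at hpB
          exact_mod_cast hpB
        linarith
      have h7 : (2 : ℝ) ≤ (Ideal.absNorm p : ℝ) ^ ε := by
        calc (2 : ℝ) = ((2 : ℝ) ^ (ε⁻¹)) ^ ε := by
              rw [← Real.rpow_mul (by norm_num), inv_mul_cancel₀ hε.ne', Real.rpow_one]
          _ ≤ _ := Real.rpow_le_rpow (by positivity) h4 hε.le
      rw [mul_comm, Real.rpow_mul (by linarith), Real.rpow_natCast]
      calc ((s.count p + 1 : ℕ) : ℝ) ≤ ((2 ^ s.count p : ℕ) : ℝ) := by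
            exact_mod_cast Nat.succ_le_of_lt Nat.lt_two_pow_self
        _ = (2 : ℝ) ^ s.count p := by push_cast; rfl
        _ ≤ _ := pow_le_pow_left₀ (by norm_num) h7 _
  calc (S.card : ℝ) ≤ ((∏ p ∈ s.toFinset, (s.count p + 1) : ℕ) : ℝ) := by exact_mod_cast hcard
    _ = ∏ p ∈ s.toFinset, ((s.count p + 1 : ℕ) : ℝ) := by push_cast; rfl
    _ ≤ ∏ p ∈ s.toFinset, ((if Ideal.absNorm p ≤ B then C0 else 1) *
        ((Ideal.absNorm p : ℝ) ^ s.count p) ^ ε) :=
        Finset.prod_le_prod (fun p _ => Nat.cast_nonneg _) hterm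
    _ = (∏ p ∈ s.toFinset, if Ideal.absNorm p ≤ B then C0 else 1) *
        (Ideal.absNorm I : ℝ) ^ ε := by
        rw [Finset.prod_mul_distrib, Real.finsetProd_rpow _ _ (fun p _ => by positivity), hnorm]
        push_cast
        rfl
    _ ≤ _ := by
        refine mul_le_mul_of_nonneg_right ?_ (by positivity)
        rw [Finset.prod_ite, Finset.prod_const, Finset.prod_const_one, mul_one]
        refine pow_le_pow_right₀ hC01 (primes_card D B L hLD _ fun p hp => ?_)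
        exact ⟨hpr p (Finset.mem_filter.1 hp).1, (Finset.mem_filter.1 hp).2⟩

/-- powers of the logarithm -/
theorem log_le (k : ℕ) (δ : ℝ) (hδ : 0 < δ) : ∃ C : ℝ, 0 < C ∧ ∀ H : ℝ, 1 ≤ H →
    (1 + Real.log H) ^ k ≤ C * H ^ δ := by
  set η : ℝ := δ / (k + 1) with hη
  have hη0 : 0 < η := by positivity
  refine ⟨(1 + η⁻¹) ^ k, by positivity, fun H hH => ?_⟩
  have hlog : 0 ≤ Real.log H := Real.log_nonneg hH
  have hH0 : 0 < H := by linarith
  have h1 : 1 + Real.log H ≤ (1 + η⁻¹) * H ^ η := by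
    have h2 : Real.log H ≤ η⁻¹ * H ^ η := by
      have := Real.log_le_rpow_div hH0.le hη0
      rwa [div_eq_inv_mul] at this
    have h3 : 1 ≤ H ^ η := Real.one_le_rpow hH hη0.le
    nlinarith
  calc (1 + Real.log H) ^ k ≤ ((1 + η⁻¹) * H ^ η) ^ k := pow_le_pow_left₀ (by linarith) h1 k
    _ = (1 + η⁻¹) ^ k * H ^ (η * k) := by
        rw [mul_pow, ← Real.rpow_natCast (H ^ η), ← Real.rpow_mul hH0.le]
    _ ≤ (1 + η⁻¹) ^ k * H ^ δ := by
        refine mul_le_mul_of_nonneg_left (Real.rpow_le_rpow_of_exponent_le hH ?_) (by positivity)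
        rw [hη, div_mul_eq_mul_div, div_le_iff₀ (by positivity)]
        nlinarith

/-- (F3) -/
theorem div_pairs (K : Type) [Field K] [NumberField K] (ε : ℝ) (hε : 0 < ε) : ∃ C : ℝ, 0 < C ∧
    ∀ H : ℝ, 1 ≤ H → ∀ n : 𝓞 K, n ≠ 0 →
    ∀ S : Finset (𝓞 K × 𝓞 K), (∀ x ∈ S, x.1 * x.2 = n ∧ Bd H x.1 ∧ Bd H x.2) →
      (S.card : ℝ) ≤ C * H ^ ε := by
  classical
  have hd := dg_pos (K := K)
  have hd0 : (0 : ℝ) < dg K := by exact_mod_cast hd
  set η : ℝ := ε / (4 * dg K) with hη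
  have hη0 : 0 < η := by positivity
  obtain ⟨C1, hC1, h1⟩ := ideal_div (dg K) η hη0
  obtain ⟨C2, hC2, h2⟩ := assoc_card K
  obtain ⟨C3, hC3, h3⟩ := log_le (rank K) (ε / 2) (by positivity)
  have hC2' : 0 < C2 := by linarith
  refine ⟨C2 * C3 * C1, by positivity, fun H hH n hn S hS => ?_⟩
  have hlog : 0 ≤ Real.log H := Real.log_nonneg hH
  have hH0 : 0 < H := by linarith
  rcases S.eq_empty_or_nonempty with rfl | ⟨z0, hz0⟩
  · simp only [Finset.card_empty, Nat.cast_zero]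
    positivity
  have hx0 : ∀ x ∈ S, x.1 ≠ 0 := fun x hx h => hn (by rw [← (hS x hx).1, h, zero_mul])
  set B : ℝ := C2 * (1 + Real.log H) ^ rank K with hB
  have hB0 : 0 ≤ B := by positivity
  have hinj : Set.InjOn (fun x : 𝓞 K × 𝓞 K => x.1) S := by
    intro x hx y hy h
    have h' : x.1 = y.1 := h
    refine Prod.ext h' ?_
    have h4 := (hS x hx).1
    rw [← (hS y hy).1, h'] at h4
    exact mul_left_cancel₀ (hx0 y hy) h4
  set T : Finset (𝓞 K) := S.image fun x => x.1 with hT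
  have hST : S.card = T.card := (Finset.card_image_of_injOn hinj).symm
  have hT1 : ∀ x ∈ T, x ≠ 0 ∧ Bd H x ∧ x ∣ n := by
    intro x hx
    obtain ⟨z, hz, rfl⟩ := Finset.mem_image.1 hx
    exact ⟨hx0 z hz, (hS z hz).2.1, ⟨z.2, (hS z hz).1.symm⟩⟩
  have h4 : T.card ≤ ⌊B⌋₊ * (T.image fun x => Ideal.span {x}).card := by
    refine Finset.card_le_mul_card_image _ _ fun I _ => ?_
    refine Nat.le_floor ?_
    refine h2 H hH _ (fun x hx => ?_) (fun x hx y hy => ?_)
    · have := hT1 x (Finset.mem_filter.1 hx).1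
      exact ⟨this.1, this.2.1⟩
    · rw [(Finset.mem_filter.1 hx).2, (Finset.mem_filter.1 hy).2]
  have h5 := h1 K le_rfl (Ideal.span {n}) (fun h => hn (Ideal.span_singleton_eq_bot.1 h))
    (T.image fun x => Ideal.span {x}) (by
      intro J hJ
      obtain ⟨x, hx, rfl⟩ := Finset.mem_image.1 hJ
      rw [Ideal.dvd_span_singleton, Ideal.mem_span_singleton]
      exact (hT1 x hx).2.2)
  have h6 : ((Ideal.absNorm (Ideal.span {n}) : ℕ) : ℝ) ≤ H ^ (2 * dg K) := by
    rw [← nm_absNorm, ← (hS z0 hz0).1]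
    have h7 : nm (((z0.1 * z0.2 : 𝓞 K)) : K) = nm (z0.1 : K) * nm (z0.2 : K) := by
      rw [RingOfIntegers.coe_eq_algebraMap, map_mul]
      simp [nm, Finset.prod_mul_distrib]
    rw [h7, two_mul, pow_add]
    exact mul_le_mul (nm_le (hS z0 hz0).2.1) (nm_le (hS z0 hz0).2.2)
      (Finset.prod_nonneg fun φ _ => norm_nonneg _) (by positivity)
  have h8 : (((Ideal.absNorm (Ideal.span {n}) : ℕ) : ℝ)) ^ η ≤ H ^ (ε / 2) := by
    refine (Real.rpow_le_rpow (Nat.cast_nonneg _) h6 hη0.le).trans (le_of_eq ?_)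
    rw [← Real.rpow_natCast, ← Real.rpow_mul hH0.le]
    congr 1
    rw [hη]
    push_cast
    field_simp
    norm_num
  calc (S.card : ℝ) = (T.card : ℝ) := by rw [hST]
    _ ≤ (⌊B⌋₊ : ℝ) * ((T.image fun x => Ideal.span {x}).card : ℝ) := by exact_mod_cast h4
    _ ≤ B * (C1 * H ^ (ε / 2)) := by
        refine mul_le_mul (Nat.floor_le hB0) (h5.trans ?_) (Nat.cast_nonneg _) hB0
        exact mul_le_mul_of_nonneg_left h8 hC1.le
    _ ≤ (C2 * (C3 * H ^ (ε / 2))) * (C1 * H ^ (ε / 2)) := by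
        refine mul_le_mul_of_nonneg_right ?_ (by positivity)
        exact mul_le_mul_of_nonneg_left (h3 H hH) hC2'.le
    _ = C2 * C3 * C1 * (H ^ (ε / 2) * H ^ (ε / 2)) := by ring
    _ = _ := by rw [← Real.rpow_add hH0, add_halves]

end Pool.H63.W1
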