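import Mathlib

/-!
# Balancing by units
-/

set_option autoImplicit false

namespace Pool.H63.W1

open NumberField NumberField.InfinitePlace NumberField.mixedEmbedding Module
open scoped Classical

variable (K : Type) [Field K] [NumberField K]

/-- the degree -/
noncomputable abbrev dg : ℕ := finrank ℚ K

/-- the size of a family of radii: the geometric mean -/
noncomputable def gm (R : InfinitePlace K → ℝ) : ℝ :=
  (∏ w, R w ^ w.mult) ^ ((dg K : ℝ)⁻¹)

variable {K}

theorem dg_pos : 0 < dg K := finrank_pos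

theorem sum_mult : ∑ w : InfinitePlace K, w.mult = dg K := InfinitePlace.sum_mult_eq

theorem prod_pos {R : InfinitePlace K → ℝ} (hR : ∀ w, 0 < R w) : 0 < ∏ w, R w ^ w.mult :=
  Finset.prod_pos fun w _ => pow_pos (hR w) _

theorem gm_pos {R : InfinitePlace K → ℝ} (hR : ∀ w, 0 < R w) : 0 < gm K R :=
  Real.rpow_pos_of_pos (prod_pos hR) _

theorem gm_pow {R : InfinitePlace K → ℝ} (hR : ∀ w, 0 < R w) :
    gm K R ^ dg K = ∏ w, R w ^ w.mult := by
  unfold gm
  rw [← Real.rpow_natCast, ← Real.rpow_mul (prod_pos hR).le,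
    inv_mul_cancel₀ (by exact_mod_cast dg_pos.ne'), Real.rpow_one]

/-- the vector of the radii -/
noncomputable def vec (R : InfinitePlace K → ℝ) : mixedSpace K :=
  (fun w => R w.1, fun w => (R w.1 : ℂ))

theorem nap_vec {R : InfinitePlace K → ℝ} (hR : ∀ w, 0 < R w) (w : InfinitePlace K) :
    normAtPlace w (vec R) = R w := by
  by_cases hw : w.IsReal
  · rw [normAtPlace_apply_of_isReal hw, vec]
    simp [abs_of_pos (hR w)]
  · rw [normAtPlace_apply_of_isComplex (not_isReal_iff_isComplex.1 hw), vec]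
    simp [abs_of_pos (hR w)]

theorem norm_vec {R : InfinitePlace K → ℝ} (hR : ∀ w, 0 < R w) :
    mixedEmbedding.norm (vec R) = ∏ w, R w ^ w.mult := by
  rw [mixedEmbedding.norm_apply]
  exact Finset.prod_congr rfl fun w _ => by rw [nap_vec hR]

theorem bal_up (K : Type) [Field K] [NumberField K] : ∃ C : ℝ, 1 ≤ C ∧
    ∀ R : InfinitePlace K → ℝ, (∀ w, 0 < R w) →
      ∃ u : (𝓞 K)ˣ, ∀ w : InfinitePlace K, w (u : K) * R w ≤ C * gm K R := by
  obtain ⟨C, hC⟩ := (mixedEmbedding.fundamentalCone.isBounded_normLeOne K).exists_norm_le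
  refine ⟨max C 1, le_max_right _ _, fun R hR => ?_⟩
  have hn : mixedEmbedding.norm (vec R) ≠ 0 := by
    rw [norm_vec hR]
    exact (prod_pos hR).ne'
  obtain ⟨u, hu⟩ := mixedEmbedding.fundamentalCone.exists_unit_smul_mem (x := vec R) hn
  refine ⟨u, fun w => ?_⟩
  have hg := gm_pos hR
  have hmem : (gm K R)⁻¹ • (u • vec R) ∈ mixedEmbedding.fundamentalCone.normLeOne K := by
    refine ⟨mixedEmbedding.fundamentalCone.smul_mem_of_mem hu (inv_ne_zero hg.ne'), ?_⟩
    change mixedEmbedding.norm ((gm K R)⁻¹ • (u • vec R)) ≤ 1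
    rw [mixedEmbedding.norm_smul, mixedEmbedding.norm_unit_smul, norm_vec hR,
      abs_of_pos (inv_pos.mpr hg), inv_pow, gm_pow hR, inv_mul_cancel₀ (prod_pos hR).ne']
  have h1 := hC _ hmem
  have h2 : normAtPlace w ((gm K R)⁻¹ • (u • vec R)) ≤ C := by
    refine le_trans ?_ h1
    rw [mixedEmbedding.norm_eq_sup'_normAtPlace]
    exact Finset.le_sup' (fun w => normAtPlace w ((gm K R)⁻¹ • (u • vec R))) (Finset.mem_univ w)
  rw [normAtPlace_smul, unitSMul_smul, map_mul, normAtPlace_apply, nap_vec hR,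
    abs_of_pos (inv_pos.mpr hg), inv_mul_le_iff₀ hg, mul_comm (gm K R)] at h2
  exact h2.trans (mul_le_mul_of_nonneg_right (le_max_left _ _) hg.le)

end Pool.H63.W1
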