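import Pool.Agent.H63.W1.Bal
import Pool.Agent.H10.Sar.Geo

/-!
# Counting integers in boxes
-/

set_option autoImplicit false

namespace Pool.H63.W1

open NumberField NumberField.InfinitePlace Module

variable {K : Type} [Field K] [NumberField K]

/-- the integers in the box with the radii `R` -/
def box (R : InfinitePlace K → ℝ) : Set (𝓞 K) := {x | ∀ w : InfinitePlace K, w (x : K) ≤ R w}

/-- a bound for the number of integers all whose absolute values are at most `ρ` -/
theorem cnt_ball (K : Type) [Field K] [NumberField K] : ∃ C : ℝ, 1 ≤ C ∧ ∀ ρ : ℝ, 1 ≤ ρ →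
    (box fun _ : InfinitePlace K => ρ).Finite ∧
      ((box fun _ : InfinitePlace K => ρ).ncard : ℝ) ≤ C * ρ ^ dg K := by
  classical
  let b0 := RingOfIntegers.basis K
  have hfin : Fintype (Free.ChooseBasisIndex ℤ (𝓞 K)) := inferInstance
  let D := Fintype.card (Free.ChooseBasisIndex ℤ (𝓞 K))
  let b : Basis (Fin D) ℤ (𝓞 K) := b0.reindex (Fintype.equivFin _)
  obtain ⟨C, hC1, hC⟩ := Pool.Agent.H10.Sar.sz_le b
  have hD : D = dg K := Pool.Agent.H10.Sar.card_eq_finrank b
  refine ⟨(2 * C + 3) ^ D, one_le_pow₀ (by linarith), fun ρ hρ => ?_⟩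
  have hmn : ∀ x ∈ (box fun _ : InfinitePlace K => ρ), Pool.Agent.H10.Sar.mn x ≤ ρ := by
    intro x hx
    obtain ⟨w, hw⟩ := Pool.Agent.H10.Sar.exists_place x
    rw [← hw]
    exact hx w
  set H : ℤ := ⌊C * ρ⌋ with hH
  have hco : ∀ x ∈ (box fun _ : InfinitePlace K => ρ), ∀ i, b.equivFun x i ∈ Finset.Icc (-H) H := by
    intro x hx i
    have h1 := (Pool.Agent.H10.Sar.sz_coord b x i).trans ((hC x).trans
      (mul_le_mul_of_nonneg_left (hmn x hx) (by linarith)))
    rw [abs_le] at h1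
    rw [Finset.mem_Icc]
    constructor
    · rw [neg_le]
      exact Int.le_floor.2 (by push_cast; linarith)
    · exact Int.le_floor.2 h1.2
  have hsub : (b.equivFun : 𝓞 K → Fin D → ℤ) '' (box fun _ : InfinitePlace K => ρ) ⊆
      (Fintype.piFinset fun _ : Fin D => Finset.Icc (-H) H : Set (Fin D → ℤ)) := by
    rintro _ ⟨x, hx, rfl⟩
    rw [Finset.mem_coe, Fintype.mem_piFinset]
    exact hco x hx
  have hfinim := (Finset.finite_toSet _).subset hsub
  refine ⟨hfinim.of_finite_image b.equivFun.injective.injOn, ?_⟩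
  have h0 : 0 ≤ H := Int.floor_nonneg.2 (by positivity)
  have h1 : (box fun _ : InfinitePlace K => ρ).ncard ≤ (2 * H + 1).toNat ^ D := by
    rw [← Set.ncard_image_of_injective _ b.equivFun.injective]
    refine (Set.ncard_le_ncard hsub (Finset.finite_toSet _)).trans ?_
    rw [Set.ncard_coe_finset, Fintype.card_piFinset]
    simp only [Int.card_Icc, Finset.prod_const, Finset.card_univ, Fintype.card_fin]
    refine Nat.pow_le_pow_left ?_ D
    omega
  have h2 : (((2 * H + 1).toNat : ℕ) : ℝ) ≤ (2 * C + 3) * ρ := by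
    have h3 : (((2 * H + 1).toNat : ℕ) : ℝ) = 2 * (H : ℝ) + 1 := by
      have : (((2 * H + 1).toNat : ℤ)) = 2 * H + 1 := Int.toNat_of_nonneg (by omega)
      exact_mod_cast this
    rw [h3]
    have h4 : (H : ℝ) ≤ C * ρ := Int.floor_le _
    nlinarith
  calc ((box fun _ : InfinitePlace K => ρ).ncard : ℝ) ≤ (((2 * H + 1).toNat ^ D : ℕ) : ℝ) := by
        exact_mod_cast h1
    _ = (((2 * H + 1).toNat : ℕ) : ℝ) ^ D := by push_cast; rfl
    _ ≤ ((2 * C + 3) * ρ) ^ D := pow_le_pow_left₀ (Nat.cast_nonneg _) h2 D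
    _ = (2 * C + 3) ^ D * ρ ^ dg K := by rw [mul_pow, ← hD]

/-- nonzero integers have norm at least one -/
theorem one_le_prod {x : 𝓞 K} (hx : x ≠ 0) : 1 ≤ ∏ w : InfinitePlace K, w (x : K) ^ w.mult := by
  rw [← Pool.Agent.H10.Sar.abs_norm_eq]
  have : Algebra.norm ℤ x ≠ 0 := by
    rwa [Ne, Algebra.norm_eq_zero_iff]
  have h1 : 1 ≤ (Algebra.norm ℤ x).natAbs := Int.natAbs_pos.2 this
  exact_mod_cast h1

theorem prod_unit (u : (𝓞 K)ˣ) : ∏ w : InfinitePlace K, w (u : K) ^ w.mult = 1 := by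
  rw [InfinitePlace.prod_eq_abs_norm]
  have h := NumberField.isUnit_iff_norm.1 u.isUnit
  rw [RingOfIntegers.coe_norm] at h
  exact_mod_cast h

/-- the number of integers in a box -/
theorem cnt_box (K : Type) [Field K] [NumberField K] : ∃ C : ℝ, 1 ≤ C ∧
    ∀ R : InfinitePlace K → ℝ, (∀ w, 0 < R w) →
      (box R).Finite ∧ ((box R).ncard : ℝ) ≤ C * (1 + ∏ w, R w ^ w.mult) := by
  classical
  obtain ⟨C1, hC1, h1⟩ := bal_up K
  obtain ⟨C2, hC2, h2⟩ := cnt_ball K
  refine ⟨C2 * C1 ^ dg K + 1, by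
    have : 0 ≤ C2 * C1 ^ dg K := by positivity
    linarith, fun R hR => ?_⟩
  have hP := prod_pos hR
  by_cases hlt : ∏ w, R w ^ w.mult < 1
  · have hsub : box R ⊆ {0} := by
      intro x hx
      by_contra hne
      have h3 := one_le_prod (x := x) hne
      have h4 : ∏ w : InfinitePlace K, w (x : K) ^ w.mult ≤ ∏ w, R w ^ w.mult :=
        Finset.prod_le_prod (fun w _ => pow_nonneg (apply_nonneg _ _) _)
          (fun w _ => pow_le_pow_left₀ (apply_nonneg _ _) (hx w) _)
      linarith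
    have hf := (Set.finite_singleton (0 : 𝓞 K)).subset hsub
    refine ⟨hf, ?_⟩
    have h5 : (box R).ncard ≤ 1 := by
      have := Set.ncard_le_ncard hsub (Set.finite_singleton _)
      rwa [Set.ncard_singleton] at this
    have h6 : ((box R).ncard : ℝ) ≤ 1 := by exact_mod_cast h5
    have h7 : 0 ≤ C2 * C1 ^ dg K := by positivity
    nlinarith
  · push Not at hlt
    obtain ⟨u, hu⟩ := h1 R hR
    have hg : 1 ≤ gm K R := by
      unfold gm
      exact Real.one_le_rpow hlt (by positivity)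
    have hρ : 1 ≤ C1 * gm K R := by nlinarith
    obtain ⟨hf, hc⟩ := h2 _ hρ
    have hmaps : Set.MapsTo (fun x : 𝓞 K => (u : 𝓞 K) * x) (box R)
        (box fun _ : InfinitePlace K => C1 * gm K R) := by
      intro x hx w
      show w ((((u : 𝓞 K) * x : 𝓞 K)) : K) ≤ _
      rw [RingOfIntegers.coe_eq_algebraMap, map_mul, map_mul]
      exact (mul_le_mul_of_nonneg_left (hx w) (apply_nonneg _ _)).trans (hu w)
    have hinj : Set.InjOn (fun x : 𝓞 K => (u : 𝓞 K) * x) (box R) :=
      fun x _ y _ h => u.isUnit.mul_left_cancel h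
    refine ⟨hf.of_injOn hmaps hinj, ?_⟩
    have h5 : (box R).ncard ≤ (box fun _ : InfinitePlace K => C1 * gm K R).ncard :=
      Set.ncard_le_ncard_of_injOn _ hmaps hinj hf
    have h6 : ((box R).ncard : ℝ) ≤ C2 * (C1 * gm K R) ^ dg K :=
      (by exact_mod_cast h5 : ((box R).ncard : ℝ) ≤ _).trans hc
    rw [mul_pow, gm_pow hR] at h6
    nlinarith

end Pool.H63.W1
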