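import Pool.Agent.H63.W1.Cnt

/-!
# Counting integers and elements of ideals in discs and boxes
-/

set_option autoImplicit false

namespace Pool.H63.W1

open NumberField NumberField.InfinitePlace Module

variable {K : Type} [Field K] [NumberField K]

/-- integers with conjugates in given discs -/
def disc (a : InfinitePlace K → ℂ) (R : InfinitePlace K → ℝ) : Set (𝓞 K) :=
  {x | ∀ w : InfinitePlace K, ‖w.embedding (x : K) - a w‖ ≤ R w}

theorem sub_box {a : InfinitePlace K → ℂ} {R : InfinitePlace K → ℝ} {x y : 𝓞 K}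
    (hx : x ∈ disc a R) (hy : y ∈ disc a R) : x - y ∈ box fun w => 2 * R w := by
  intro w
  have h1 := hx w
  have h2 := hy w
  rw [← InfinitePlace.norm_embedding_eq, RingOfIntegers.coe_eq_algebraMap, map_sub, map_sub]
  calc ‖w.embedding (x : K) - w.embedding (y : K)‖
      = ‖(w.embedding (x : K) - a w) - (w.embedding (y : K) - a w)‖ := by
        rw [sub_sub_sub_cancel_right]
    _ ≤ ‖w.embedding (x : K) - a w‖ + ‖w.embedding (y : K) - a w‖ := norm_sub_le _ _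
    _ ≤ 2 * R w := by linarith

theorem prod_two (R : InfinitePlace K → ℝ) :
    ∏ w, (2 * R w) ^ w.mult = 2 ^ dg K * ∏ w, R w ^ w.mult := by
  simp only [mul_pow]
  rw [Finset.prod_mul_distrib, Finset.prod_pow_eq_pow_sum, sum_mult]

/-- `(F1)`: the number of elements of a set of integers, all differences of which are in a box -/
theorem cnt_sub (K : Type) [Field K] [NumberField K] (S : Set (𝓞 K)) (C : ℝ) (hC : 1 ≤ C)
    (hS : ∀ R : InfinitePlace K → ℝ, (∀ w, 0 < R w) →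
      (S ∩ box R).Finite ∧ ((S ∩ box R).ncard : ℝ) ≤ C * (1 + ∏ w, R w ^ w.mult))
    (hsub : ∀ x ∈ S, ∀ y ∈ S, x - y ∈ S) (a : InfinitePlace K → ℂ) (R : InfinitePlace K → ℝ)
    (hR : ∀ w, 0 < R w) :
    (S ∩ disc a R).Finite ∧
      ((S ∩ disc a R).ncard : ℝ) ≤ C * 2 ^ dg K * (1 + ∏ w, R w ^ w.mult) := by
  have hP := prod_pos hR
  by_cases he : (S ∩ disc a R).Nonempty
  · obtain ⟨x0, hx0S, hx0⟩ := he
    obtain ⟨hf, hc⟩ := hS (fun w => 2 * R w) fun w => by have := hR w; positivity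
    have hmaps : Set.MapsTo (fun x : 𝓞 K => x - x0) (S ∩ disc a R)
        (S ∩ box fun w => 2 * R w) := fun x hx => ⟨hsub x hx.1 x0 hx0S, sub_box hx.2 hx0⟩
    have hinj : Set.InjOn (fun x : 𝓞 K => x - x0) (S ∩ disc a R) :=
      fun x _ y _ h => sub_left_injective h
    refine ⟨hf.of_injOn hmaps hinj, ?_⟩
    have h5 : (S ∩ disc a R).ncard ≤ (S ∩ box fun w => 2 * R w).ncard :=
      Set.ncard_le_ncard_of_injOn _ hmaps hinj hf
    have h6 : ((S ∩ disc a R).ncard : ℝ) ≤ C * (1 + ∏ w, (2 * R w) ^ w.mult) :=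
      (by exact_mod_cast h5 : ((S ∩ disc a R).ncard : ℝ) ≤ _).trans hc
    rw [prod_two] at h6
    have h7 : (1 : ℝ) ≤ 2 ^ dg K := one_le_pow₀ (by norm_num)
    refine h6.trans ?_
    rw [mul_assoc]
    refine mul_le_mul_of_nonneg_left ?_ (by linarith)
    nlinarith
  · rw [Set.not_nonempty_iff_eq_empty] at he
    rw [he]
    refine ⟨Set.finite_empty, ?_⟩
    rw [Set.ncard_empty, Nat.cast_zero]
    have h7 : (0 : ℝ) < C := by linarith
    positivity

/-- `(F1)`: the number of integers with conjugates in given discs -/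
theorem cnt_disc (K : Type) [Field K] [NumberField K] : ∃ C : ℝ, 1 ≤ C ∧
    ∀ (a : InfinitePlace K → ℂ) (R : InfinitePlace K → ℝ), (∀ w, 0 < R w) →
      (disc a R).Finite ∧ ((disc a R).ncard : ℝ) ≤ C * (1 + ∏ w, R w ^ w.mult) := by
  obtain ⟨C, hC, h⟩ := cnt_box K
  refine ⟨C * 2 ^ dg K, one_le_mul_of_one_le_of_one_le hC (one_le_pow₀ (by norm_num)),
    fun a R hR => ?_⟩
  have := cnt_sub K Set.univ C hC (by simpa only [Set.univ_inter] using h)
    (fun _ _ _ _ => trivial) a R hR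
  simpa only [Set.univ_inter] using this

/-- a nonzero ideal is, up to a bounded factor, contained in a principal one of the same norm -/
theorem cls (K : Type) [Field K] [NumberField K] : ∃ C : ℝ, 1 ≤ C ∧
    ∀ g : Ideal (𝓞 K), g ≠ ⊥ → ∃ m γ : 𝓞 K, m ≠ 0 ∧ γ ≠ 0 ∧ (∀ x ∈ g, γ ∣ m * x) ∧
      (∏ w : InfinitePlace K, w (m : K) ^ w.mult) ≤ C ∧
      (Ideal.absNorm g : ℝ) ≤ ∏ w : InfinitePlace K, w (γ : K) ^ w.mult := by
  classical
  -- representatives of the classes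
  choose r hr using fun c : ClassGroup (𝓞 K) => ClassGroup.mk0_surjective c
  have hne : ∀ c, (r c : Ideal (𝓞 K)) ≠ ⊥ := fun c => nonZeroDivisors.ne_zero (r c).2
  choose m hm hm0 using fun c => Submodule.exists_mem_ne_zero_of_ne_bot (hne c)
  refine ⟨1 + ∑ c : ClassGroup (𝓞 K), ∏ w : InfinitePlace K, w ((m c : 𝓞 K) : K) ^ w.mult, ?_, ?_⟩
  · have : 0 ≤ ∑ c : ClassGroup (𝓞 K), ∏ w : InfinitePlace K, w ((m c : 𝓞 K) : K) ^ w.mult :=
      Finset.sum_nonneg fun c _ => Finset.prod_nonneg fun w _ => pow_nonneg (apply_nonneg _ _) _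
    linarith
  intro g hg
  let g0 : nonZeroDivisors (Ideal (𝓞 K)) := ⟨g, mem_nonZeroDivisors_of_ne_zero hg⟩
  let c : ClassGroup (𝓞 K) := (ClassGroup.mk0 g0)⁻¹
  have h1 : ClassGroup.mk0 (g0 * r c) = 1 := by
    rw [map_mul, hr c, mul_inv_cancel]
  rw [ClassGroup.mk0_eq_one_iff] at h1
  obtain ⟨γ, hγ⟩ := h1
  have hγ' : g * (r c : Ideal (𝓞 K)) = Ideal.span {γ} := hγ
  have hγ0 : γ ≠ 0 := by
    rintro rfl
    rw [Ideal.span_singleton_eq_bot.2 rfl] at hγ'
    rcases mul_eq_zero.1 hγ' with h | h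
    · exact hg h
    · exact hne c h
  refine ⟨m c, γ, hm0 c, hγ0, fun x hx => ?_, ?_, ?_⟩
  · have h2 : x * m c ∈ g * (r c : Ideal (𝓞 K)) := Ideal.mul_mem_mul hx (hm c)
    rw [hγ', Ideal.mem_span_singleton] at h2
    rwa [mul_comm]
  · have h2 := Finset.single_le_sum (f := fun c : ClassGroup (𝓞 K) =>
      ∏ w : InfinitePlace K, w ((m c : 𝓞 K) : K) ^ w.mult) (fun c _ =>
      Finset.prod_nonneg fun w _ => pow_nonneg (apply_nonneg _ _) _) (Finset.mem_univ c)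
    linarith
  · rw [← Pool.Agent.H10.Sar.abs_norm_eq, ← Ideal.absNorm_span_singleton, ← hγ', map_mul]
    have h3 : 1 ≤ Ideal.absNorm (r c : Ideal (𝓞 K)) :=
      Nat.one_le_iff_ne_zero.2 (fun h => hne c (Ideal.absNorm_eq_zero_iff.1 h))
    push_cast
    have h4 : (1 : ℝ) ≤ Ideal.absNorm (r c : Ideal (𝓞 K)) := by exact_mod_cast h3
    nlinarith [(Nat.cast_nonneg (Ideal.absNorm g) : (0 : ℝ) ≤ _)]

/-- `(F1)` for ideals, boxes -/
theorem cnt_box_ideal (K : Type) [Field K] [NumberField K] : ∃ C : ℝ, 1 ≤ C ∧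
    ∀ (g : Ideal (𝓞 K)), g ≠ ⊥ → ∀ R : InfinitePlace K → ℝ, (∀ w, 0 < R w) →
      ((g : Set (𝓞 K)) ∩ box R).Finite ∧ (((g : Set (𝓞 K)) ∩ box R).ncard : ℝ) ≤
        C * (1 + (∏ w, R w ^ w.mult) / Ideal.absNorm g) := by
  obtain ⟨C1, hC1, h1⟩ := cls K
  obtain ⟨C2, hC2, h2⟩ := cnt_box K
  refine ⟨C2 * C1, one_le_mul_of_one_le_of_one_le hC2 hC1, fun g hg R hR => ?_⟩
  obtain ⟨m, γ, hm, hγ, hdvd, hmC, hgγ⟩ := h1 g hg
  have hw : ∀ {x : 𝓞 K}, x ≠ 0 → ∀ w : InfinitePlace K, 0 < w (x : K) := fun {x} hx w =>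
    pos_iff.2 (RingOfIntegers.coe_ne_zero_iff.2 hx)
  let R' : InfinitePlace K → ℝ := fun w => R w * w (m : K) / w (γ : K)
  have hR' : ∀ w, 0 < R' w := fun w => div_pos (mul_pos (hR w) (hw hm w)) (hw hγ w)
  obtain ⟨hf, hc⟩ := h2 R' hR'
  choose! y hy using hdvd
  have hmaps : Set.MapsTo y ((g : Set (𝓞 K)) ∩ box R) (box R') := by
    rintro x ⟨hx, hxb⟩ w
    have h3 : w ((m : 𝓞 K) : K) * w (x : K) = w (γ : K) * w (y x : K) := by
      rw [← map_mul, ← map_mul]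
      have h4 := congrArg (fun z : 𝓞 K => w (z : K)) (hy x hx)
      simpa only [RingOfIntegers.coe_eq_algebraMap, map_mul] using h4
    show w (y x : K) ≤ R w * w (m : K) / w (γ : K)
    rw [le_div_iff₀ (hw hγ w), mul_comm (w (y x : K)), ← h3, mul_comm (R w)]
    exact mul_le_mul_of_nonneg_left (hxb w) (apply_nonneg _ _)
  have hinj : Set.InjOn y ((g : Set (𝓞 K)) ∩ box R) := by
    rintro x ⟨hx, -⟩ x' ⟨hx', -⟩ h
    have h3 := hy x hx
    have h4 := hy x' hx'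
    rw [h, ← h4] at h3
    exact mul_left_cancel₀ hm h3
  refine ⟨hf.of_injOn hmaps hinj, ?_⟩
  have h5 : ((g : Set (𝓞 K)) ∩ box R).ncard ≤ (box R').ncard :=
    Set.ncard_le_ncard_of_injOn _ hmaps hinj hf
  have h6 : (((g : Set (𝓞 K)) ∩ box R).ncard : ℝ) ≤ C2 * (1 + ∏ w, R' w ^ w.mult) :=
    (by exact_mod_cast h5 : (((g : Set (𝓞 K)) ∩ box R).ncard : ℝ) ≤ _).trans hc
  have hg0 : (0 : ℝ) < Ideal.absNorm g := by
    have : Ideal.absNorm g ≠ 0 := fun h => hg (Ideal.absNorm_eq_zero_iff.1 h)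
    exact_mod_cast Nat.pos_of_ne_zero this
  have hP := prod_pos hR
  have h7 : ∏ w, R' w ^ w.mult ≤ C1 * ((∏ w, R w ^ w.mult) / Ideal.absNorm g) := by
    have h8 : ∏ w, R' w ^ w.mult = (∏ w, R w ^ w.mult) *
        (∏ w : InfinitePlace K, w (m : K) ^ w.mult) /
        (∏ w : InfinitePlace K, w (γ : K) ^ w.mult) := by
      rw [← Finset.prod_mul_distrib, ← Finset.prod_div_distrib]
      exact Finset.prod_congr rfl fun w _ => by rw [← mul_pow, ← div_pow]
    rw [h8]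
    have hγp : 0 < ∏ w : InfinitePlace K, w (γ : K) ^ w.mult := lt_of_lt_of_le hg0 hgγ
    rw [div_le_iff₀ hγp]
    calc (∏ w, R w ^ w.mult) * (∏ w : InfinitePlace K, w (m : K) ^ w.mult)
        ≤ (∏ w, R w ^ w.mult) * C1 := mul_le_mul_of_nonneg_left hmC hP.le
      _ = C1 * ((∏ w, R w ^ w.mult) / Ideal.absNorm g) * Ideal.absNorm g := by
        field_simp
      _ ≤ C1 * ((∏ w, R w ^ w.mult) / Ideal.absNorm g) *
          ∏ w : InfinitePlace K, w (γ : K) ^ w.mult :=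
        mul_le_mul_of_nonneg_left hgγ (by positivity)
  refine h6.trans ?_
  rw [mul_assoc]
  refine mul_le_mul_of_nonneg_left ?_ (by linarith)
  have : 0 ≤ (∏ w, R w ^ w.mult) / Ideal.absNorm g := by positivity
  nlinarith

end Pool.H63.W1
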