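import Pool.Agent.H63.W1.Dsc

/-!
# Counting units in a box
-/

set_option autoImplicit false

namespace Pool.H63.W1

open NumberField NumberField.InfinitePlace NumberField.Units
  NumberField.Units.dirichletUnitTheorem Module

variable {K : Type} [Field K] [NumberField K]

theorem sum_log_unit (u : (𝓞 K)ˣ) :
    ∑ w : InfinitePlace K, (w.mult : ℝ) * Real.log (w (u : K)) = 0 := by
  have h := congrArg Real.log (prod_unit u)
  rw [Real.log_one, Real.log_prod fun w _ => ?_] at h
  · rw [← h]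
    exact Finset.sum_congr rfl fun w _ => by rw [Real.log_pow]
  · exact pow_ne_zero _ (map_ne_zero _ |>.2 (coe_ne_zero u))

theorem abs_log_unit {B : ℝ} (hB : 1 ≤ B) (u : (𝓞 K)ˣ) (hu : ∀ w : InfinitePlace K, w (u : K) ≤ B)
    (w : InfinitePlace K) : |(w.mult : ℝ) * Real.log (w (u : K))| ≤ dg K * Real.log B := by
  classical
  have hlB : 0 ≤ Real.log B := Real.log_nonneg hB
  have hl : ∀ w : InfinitePlace K, Real.log (w (u : K)) ≤ Real.log B := fun w =>
    Real.log_le_log (pos_iff.2 (coe_ne_zero u)) (hu w)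
  have hd : ∑ w : InfinitePlace K, (w.mult : ℝ) = dg K := by
    rw [← sum_mult]
    push_cast
    rfl
  have hm : (w.mult : ℝ) ≤ dg K := by
    rw [← hd]
    exact Finset.single_le_sum (f := fun w : InfinitePlace K => (w.mult : ℝ))
      (fun _ _ => Nat.cast_nonneg _) (Finset.mem_univ w)
  rw [abs_le]
  constructor
  · have h1 := sum_log_unit u
    rw [← Finset.add_sum_erase _ _ (Finset.mem_univ w)] at h1
    have h2 : ∑ w' ∈ Finset.univ.erase w, (w'.mult : ℝ) * Real.log (w' (u : K)) ≤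
        ∑ w' ∈ Finset.univ.erase w, (w'.mult : ℝ) * Real.log B :=
      Finset.sum_le_sum fun w' _ => mul_le_mul_of_nonneg_left (hl w') (Nat.cast_nonneg _)
    have h3 : ∑ w' ∈ Finset.univ.erase w, (w'.mult : ℝ) * Real.log B ≤ dg K * Real.log B := by
      rw [← Finset.sum_mul, ← hd]
      refine mul_le_mul_of_nonneg_right ?_ hlB
      exact Finset.sum_le_sum_of_subset_of_nonneg (Finset.erase_subset _ _)
        fun _ _ _ => Nat.cast_nonneg _
    linarith
  · calc (w.mult : ℝ) * Real.log (w (u : K)) ≤ w.mult * Real.log B :=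
        mul_le_mul_of_nonneg_left (hl w) (Nat.cast_nonneg _)
      _ ≤ dg K * Real.log B := mul_le_mul_of_nonneg_right hm hlB

/-- the number of units all whose absolute values are at most `B` -/
theorem cnt_units (K : Type) [Field K] [NumberField K] : ∃ C : ℝ, 1 ≤ C ∧ ∀ B : ℝ, 1 ≤ B →
    {u : (𝓞 K)ˣ | ∀ w : InfinitePlace K, w (u : K) ≤ B}.Finite ∧
      ({u : (𝓞 K)ˣ | ∀ w : InfinitePlace K, w (u : K) ≤ B}.ncard : ℝ) ≤
        C * (1 + Real.log B) ^ rank K := by
  classical
  let bR : Basis (Fin (rank K)) ℝ (logSpace K) :=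
    (basisUnitLattice K).ofZLatticeBasis ℝ (unitLattice K)
  have hbR : ∀ i, bR i = logEmbedding K (Additive.ofMul (fundSystem K i)) := fun i => by
    rw [logEmbedding_fundSystem]
    exact Basis.ofZLatticeBasis_apply ℝ (unitLattice K) (basisUnitLattice K) i
  -- bounded coordinates
  obtain ⟨C0, hC0⟩ : ∃ C0 : ℝ, ∀ v : logSpace K, ∀ i, |bR.repr v i| ≤ C0 * ‖v‖ := by
    have hf : ∀ i, ∃ C : ℝ, ∀ v : logSpace K, |bR.repr v i| ≤ C * ‖v‖ := fun i => by
      let f : logSpace K →L[ℝ] ℝ := LinearMap.toContinuousLinearMap (bR.coord i)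
      exact ⟨‖f‖, fun v => f.le_opNorm v⟩
    choose C hC using hf
    refine ⟨∑ i, |C i|, fun v i => (hC i v).trans (mul_le_mul_of_nonneg_right ?_ (norm_nonneg _))⟩
    exact (le_abs_self _).trans (Finset.single_le_sum (f := fun i => |C i|)
      (fun _ _ => abs_nonneg _) (Finset.mem_univ i))
  set C1 : ℝ := |C0| * dg K with hC1
  have hC1' : 0 ≤ C1 := by positivity
  choose g hg _ using fun x : (𝓞 K)ˣ => exist_unique_eq_mul_prod K x
  have hinj : Function.Injective g := by
    intro x y h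
    rw [hg x, hg y, h]
  have : Fintype (torsion K) := Fintype.ofFinite _
  let T := Fintype.card (torsion K)
  have hT : 1 ≤ T := Fintype.card_pos
  refine ⟨T * (2 * C1 + 1) ^ rank K, ?_, fun B hB => ?_⟩
  · have h1 : (1 : ℝ) ≤ T := by exact_mod_cast hT
    exact one_le_mul_of_one_le_of_one_le h1 (one_le_pow₀ (by linarith))
  have hlB : 0 ≤ Real.log B := Real.log_nonneg hB
  set H : ℤ := ⌊C1 * Real.log B⌋ with hH
  have hH0 : 0 ≤ H := Int.floor_nonneg.2 (by positivity)
  have hco : ∀ u : (𝓞 K)ˣ, (∀ w : InfinitePlace K, w (u : K) ≤ B) →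
      ∀ i, (g u).2 i ∈ Finset.Icc (-H) H := by
    intro u hu i
    have h1 : logEmbedding K (Additive.ofMul u) = ∑ i, ((g u).2 i : ℝ) • bR i := by
      have h2 : Additive.ofMul u = Additive.ofMul ((g u).1 : (𝓞 K)ˣ) +
          ∑ i, (g u).2 i • Additive.ofMul (fundSystem K i) := by
        conv_lhs => rw [hg u]
        rw [ofMul_mul, ofMul_prod]
        rfl
      rw [h2, map_add, map_sum]
      have h3 : logEmbedding K (Additive.ofMul ((g u).1 : (𝓞 K)ˣ)) = 0 :=
        logEmbedding_eq_zero_iff.2 (g u).1.2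
      rw [h3, zero_add]
      refine Finset.sum_congr rfl fun i _ => ?_
      rw [map_zsmul, hbR, Int.cast_smul_eq_zsmul ℝ]
    have h2 : bR.repr (logEmbedding K (Additive.ofMul u)) i = ((g u).2 i : ℝ) := by
      rw [h1, Basis.repr_sum_self]
    have h3 : ‖logEmbedding K (Additive.ofMul u)‖ ≤ dg K * Real.log B := by
      rw [pi_norm_le_iff_of_nonneg (by positivity)]
      intro w
      rw [logEmbedding_component, Real.norm_eq_abs]
      exact abs_log_unit hB u hu w.1
    have h4 := hC0 (logEmbedding K (Additive.ofMul u)) i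
    rw [h2] at h4
    have h5 : |((g u).2 i : ℝ)| ≤ C1 * Real.log B := by
      refine h4.trans ((mul_le_mul_of_nonneg_right (le_abs_self C0) (norm_nonneg _)).trans ?_)
      rw [hC1, mul_assoc]
      exact mul_le_mul_of_nonneg_left h3 (abs_nonneg _)
    rw [abs_le] at h5
    rw [Finset.mem_Icc]
    constructor
    · rw [neg_le]
      exact Int.le_floor.2 (by push_cast; linarith)
    · exact Int.le_floor.2 h5.2
  have hsub : g '' {u : (𝓞 K)ˣ | ∀ w : InfinitePlace K, w (u : K) ≤ B} ⊆
      ((Finset.univ : Finset (torsion K)) ×ˢ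
        (Fintype.piFinset fun _ : Fin (rank K) => Finset.Icc (-H) H) :
          Set (torsion K × (Fin (rank K) → ℤ))) := by
    rintro _ ⟨u, hu, rfl⟩
    rw [Set.mem_prod]
    refine ⟨Finset.mem_coe.2 (Finset.mem_univ _), ?_⟩
    rw [Finset.mem_coe, Fintype.mem_piFinset]
    exact hco u hu
  rw [← Finset.coe_product] at hsub
  have hfin := (Finset.finite_toSet _).subset hsub
  refine ⟨hfin.of_finite_image hinj.injOn, ?_⟩
  have h1 : {u : (𝓞 K)ˣ | ∀ w : InfinitePlace K, w (u : K) ≤ B}.ncard ≤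
      T * (2 * H + 1).toNat ^ rank K := by
    rw [← Set.ncard_image_of_injective _ hinj]
    refine (Set.ncard_le_ncard hsub (Finset.finite_toSet _)).trans ?_
    rw [Set.ncard_coe_finset, Finset.card_product, Fintype.card_piFinset]
    simp only [Int.card_Icc, Finset.prod_const, Finset.card_univ, Fintype.card_fin]
    refine Nat.mul_le_mul_left _ (Nat.pow_le_pow_left ?_ _)
    omega
  have h2 : (((2 * H + 1).toNat : ℕ) : ℝ) ≤ (2 * C1 + 1) * (1 + Real.log B) := by
    have h3 : (((2 * H + 1).toNat : ℕ) : ℝ) = 2 * (H : ℝ) + 1 := by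
      have : (((2 * H + 1).toNat : ℤ)) = 2 * H + 1 := Int.toNat_of_nonneg (by omega)
      exact_mod_cast this
    rw [h3]
    have h4 : (H : ℝ) ≤ C1 * Real.log B := Int.floor_le _
    nlinarith
  calc (({u : (𝓞 K)ˣ | ∀ w : InfinitePlace K, w (u : K) ≤ B}.ncard : ℕ) : ℝ)
      ≤ ((T * (2 * H + 1).toNat ^ rank K : ℕ) : ℝ) := by exact_mod_cast h1
    _ = T * (((2 * H + 1).toNat : ℕ) : ℝ) ^ rank K := by push_cast; rfl
    _ ≤ T * ((2 * C1 + 1) * (1 + Real.log B)) ^ rank K :=
      mul_le_mul_of_nonneg_left (pow_le_pow_left₀ (Nat.cast_nonneg _) h2 _) (Nat.cast_nonneg _)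
    _ = T * (2 * C1 + 1) ^ rank K * (1 + Real.log B) ^ rank K := by rw [mul_pow, mul_assoc]

end Pool.H63.W1
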