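import Pool.Agent.H88.A4.Defs
import Pool.Agent.H63.W1.Unt

/-!
# Transfer between embeddings and infinite places, packing, balancing
-/

set_option autoImplicit false

namespace Pool.H63.W1

open NumberField NumberField.InfinitePlace Module
open H88.A4

variable {K : Type} [Field K] [NumberField K]

/-- products over the embeddings of functions of the place -/
theorem prod_emb (g : InfinitePlace K → ℝ) :
    ∏ φ : K →+* ℂ, g (InfinitePlace.mk φ) = ∏ w : InfinitePlace K, g w ^ w.mult := by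
  classical
  rw [← Finset.prod_fiberwise (Finset.univ : Finset (K →+* ℂ)) (fun φ => InfinitePlace.mk φ)]
  refine Finset.prod_congr rfl fun w _ => ?_
  rw [Finset.prod_congr rfl (g := fun _ => g w) (fun φ hφ => by
    rw [(Finset.mem_filter.1 hφ).2]), Finset.prod_const, card_filter_mk_eq]

theorem nm_prod (x : K) : nm x = ∏ w : InfinitePlace K, w x ^ w.mult := by
  rw [← prod_emb (fun w => w x)]
  exact Finset.prod_congr rfl fun φ _ => (InfinitePlace.apply φ x).symm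

theorem nm_one_le (x : 𝓞 K) (hx : x ≠ 0) : 1 ≤ nm (x : K) := by
  rw [nm_prod]
  exact one_le_prod hx

theorem nm_absNorm (x : 𝓞 K) : nm (x : K) = (Ideal.absNorm (Ideal.span {x}) : ℝ) := by
  rw [nm_prod, ← Pool.Agent.H10.Sar.abs_norm_eq, Ideal.absNorm_span_singleton]

theorem card_emb : Fintype.card (K →+* ℂ) = dg K := by
  rw [NumberField.Embeddings.card]

open scoped Classical in
/-- packing with respect to the places -/
theorem pack_le {ν L : ℝ} (hν : 0 < ν) (hL : 0 < L) (S : Finset K)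
    (hν' : ∀ x ∈ S, ∀ y ∈ S, x ≠ y → ν ≤ nm (x - y))
    (hS : ∀ x ∈ S, ∀ y ∈ S, ∀ w : InfinitePlace K, w (x - y) ≤ L) :
    (S.card : ℝ) ≤ 2 ^ dg K * 3 ^ dg K * (1 + 2 ^ dg K * L ^ dg K / ν) := by
  have hd := dg_pos (K := K)
  have hd' : (dg K : ℝ) ≠ 0 := by exact_mod_cast hd.ne'
  have hrhs : (1 : ℝ) ≤ 2 ^ dg K * 3 ^ dg K * (1 + 2 ^ dg K * L ^ dg K / ν) := by
    have h1 : (1 : ℝ) ≤ 2 ^ dg K * 3 ^ dg K :=
      one_le_mul_of_one_le_of_one_le (one_le_pow₀ (by norm_num)) (one_le_pow₀ (by norm_num))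
    have h2 : 0 ≤ 2 ^ dg K * L ^ dg K / ν := by positivity
    nlinarith
  rcases S.eq_empty_or_nonempty with rfl | ⟨x0, hx0⟩
  · simp only [Finset.card_empty, Nat.cast_zero]
    linarith
  set δ : ℝ := ν ^ ((dg K : ℝ)⁻¹) / 2 with hδ
  have hδ0 : 0 < δ := by positivity
  have hδd : (2 * δ) ^ dg K = ν := by
    rw [hδ, mul_div_cancel₀ _ (by norm_num : (2 : ℝ) ≠ 0), ← Real.rpow_natCast,
      ← Real.rpow_mul hν.le, inv_mul_cancel₀ hd', Real.rpow_one]
  set H : ℤ := ⌊L / δ⌋ + 1 with hH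
  have hH0 : 0 ≤ H := by
    have : 0 ≤ ⌊L / δ⌋ := Int.floor_nonneg.2 (by positivity)
    omega
  let f : K → (InfinitePlace K → ℤ × ℤ) := fun x w =>
    (⌊(w.embedding (x - x0)).re / δ⌋, ⌊(w.embedding (x - x0)).im / δ⌋)
  let cells : Finset (InfinitePlace K → ℤ × ℤ) := Fintype.piFinset fun w =>
    (Finset.Icc (-H) H) ×ˢ (if w.IsReal then {0} else Finset.Icc (-H) H)
  have hfl : ∀ a : ℝ, |a| ≤ L → ⌊a / δ⌋ ∈ Finset.Icc (-H) H := by
    intro a ha
    rw [abs_le] at ha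
    rw [Finset.mem_Icc]
    constructor
    · rw [Int.le_floor]
      have h1 : L / δ ≤ H := by
        rw [hH]
        push_cast
        exact (Int.lt_floor_add_one _).le
      have h2 : -(L / δ) ≤ a / δ := by
        rw [← neg_div]
        exact div_le_div_of_nonneg_right ha.1 hδ0.le
      push_cast
      linarith
    · have h1 : ⌊a / δ⌋ ≤ ⌊L / δ⌋ := Int.floor_le_floor (div_le_div_of_nonneg_right ha.2 hδ0.le)
      omega
  have himr : ∀ w : InfinitePlace K, w.IsReal → ∀ x : K, (w.embedding x).im = 0 := by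
    intro w hw x
    have h1 := InfinitePlace.isReal_iff.1 hw
    have h2 : star (w.embedding x) = w.embedding x := by
      have := RingHom.congr_fun h1 x
      rwa [ComplexEmbedding.conjugate_coe_eq] at this
    exact Complex.conj_eq_iff_im.1 h2
  have hmem : ∀ x ∈ S, f x ∈ cells := by
    intro x hx
    rw [Fintype.mem_piFinset]
    intro w
    have h1 : ‖w.embedding (x - x0)‖ ≤ L := by
      rw [InfinitePlace.norm_embedding_eq]
      exact hS x hx x0 hx0 w
    rw [Finset.mem_product]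
    refine ⟨hfl _ ((Complex.abs_re_le_norm _).trans h1), ?_⟩
    by_cases hw : w.IsReal
    · rw [if_pos hw]
      show ⌊(w.embedding (x - x0)).im / δ⌋ ∈ ({0} : Finset ℤ)
      rw [himr w hw]
      simp
    · rw [if_neg hw]
      exact hfl _ ((Complex.abs_im_le_norm _).trans h1)
  have hinj : Set.InjOn f S := by
    intro x hx y hy hxy
    by_contra hne
    have h1 := hν' x hx y hy hne
    have h2 : nm (x - y) < ν := by
      rw [nm_prod, ← hδd, ← sum_mult (K := K), ← Finset.prod_pow_eq_pow_sum]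
      have hle : ∀ w : InfinitePlace K, w (x - y) < 2 * δ := by
        intro w
        have h3 : f x w = f y w := congrFun hxy w
        have hre : |(w.embedding (x - y)).re| < δ := by
          have h4 : ⌊(w.embedding (x - x0)).re / δ⌋ = ⌊(w.embedding (y - x0)).re / δ⌋ :=
            congrArg Prod.fst h3
          have h5 := Int.abs_sub_lt_one_of_floor_eq_floor h4
          rw [← sub_div, abs_div, abs_of_pos hδ0, div_lt_one hδ0] at h5
          rw [show x - y = (x - x0) - (y - x0) by ring, map_sub, Complex.sub_re]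
          exact h5
        have him : |(w.embedding (x - y)).im| < δ := by
          have h4 : ⌊(w.embedding (x - x0)).im / δ⌋ = ⌊(w.embedding (y - x0)).im / δ⌋ :=
            congrArg Prod.snd h3
          have h5 := Int.abs_sub_lt_one_of_floor_eq_floor h4
          rw [← sub_div, abs_div, abs_of_pos hδ0, div_lt_one hδ0] at h5
          rw [show x - y = (x - x0) - (y - x0) by ring, map_sub, Complex.sub_im]
          exact h5
        rw [← InfinitePlace.norm_embedding_eq]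
        have := Complex.norm_le_abs_re_add_abs_im (w.embedding (x - y))
        linarith
      refine Finset.prod_lt_prod_of_nonempty (fun w _ => ?_) (fun w _ => ?_) ?_
      · exact pow_pos (InfinitePlace.pos_iff.2 (sub_ne_zero.2 hne)) _
      · exact pow_lt_pow_left₀ (hle w) (apply_nonneg _ _) InfinitePlace.mult_pos.ne'
      · exact ⟨Classical.arbitrary _, Finset.mem_univ _⟩
    linarith
  have hcard : S.card ≤ cells.card := Finset.card_le_card_of_injOn f hmem hinj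
  have hcells : cells.card = (2 * H + 1).toNat ^ dg K := by
    rw [Fintype.card_piFinset, ← sum_mult (K := K), ← Finset.prod_pow_eq_pow_sum]
    refine Finset.prod_congr rfl fun w _ => ?_
    rw [Finset.card_product]
    have h1 : (Finset.Icc (-H) H).card = (2 * H + 1).toNat := by
      rw [Int.card_Icc]
      congr 1
      ring
    by_cases hw : w.IsReal
    · rw [if_pos hw, h1, Finset.card_singleton, mul_one, InfinitePlace.mult_isReal ⟨w, hw⟩, pow_one]
    · have h2 : w.mult = 2 := InfinitePlace.mult_isComplex ⟨w, not_isReal_iff_isComplex.1 hw⟩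
      rw [if_neg hw, h1, h2, sq]
  have hN : (((2 * H + 1).toNat : ℕ) : ℝ) ≤ 3 * (1 + L / δ) := by
    have h3 : (((2 * H + 1).toNat : ℕ) : ℝ) = 2 * (H : ℝ) + 1 := by
      have : (((2 * H + 1).toNat : ℤ)) = 2 * H + 1 := Int.toNat_of_nonneg (by omega)
      exact_mod_cast this
    rw [h3, hH]
    push_cast
    have h4 := Int.floor_le (L / δ)
    have h5 : 0 ≤ L / δ := by positivity
    linarith
  have h1a : (1 + L / δ) ^ dg K ≤ 2 ^ dg K * (1 + (L / δ) ^ dg K) := by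
    have h5 : 0 ≤ L / δ := by positivity
    rcases le_total 1 (L / δ) with h | h
    · calc (1 + L / δ) ^ dg K ≤ (2 * (L / δ)) ^ dg K := pow_le_pow_left₀ (by positivity) (by linarith) _
        _ = 2 ^ dg K * (L / δ) ^ dg K := mul_pow _ _ _
        _ ≤ _ := by nlinarith [pow_pos (by norm_num : (0 : ℝ) < 2) (dg K)]
    · calc (1 + L / δ) ^ dg K ≤ 2 ^ dg K := pow_le_pow_left₀ (by positivity) (by linarith) _
        _ ≤ _ := by
          have : 0 ≤ (L / δ) ^ dg K := by positivity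
          nlinarith [pow_pos (by norm_num : (0 : ℝ) < 2) (dg K)]
  have h1b : (L / δ) ^ dg K = 2 ^ dg K * L ^ dg K / ν := by
    rw [← hδd, div_pow, mul_pow]
    field_simp
  calc (S.card : ℝ) ≤ (cells.card : ℝ) := by exact_mod_cast hcard
    _ = (((2 * H + 1).toNat : ℕ) : ℝ) ^ dg K := by rw [hcells]; push_cast; rfl
    _ ≤ (3 * (1 + L / δ)) ^ dg K := pow_le_pow_left₀ (Nat.cast_nonneg _) hN _
    _ = 3 ^ dg K * (1 + L / δ) ^ dg K := mul_pow _ _ _
    _ ≤ 3 ^ dg K * (2 ^ dg K * (1 + (L / δ) ^ dg K)) :=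
        mul_le_mul_of_nonneg_left h1a (by positivity)
    _ = _ := by rw [h1b]; ring

/-- the symmetrised radius -/
noncomputable def sy (R : (K →+* ℂ) → ℝ) (w : InfinitePlace K) : ℝ :=
  Real.sqrt (R w.embedding * R (ComplexEmbedding.conjugate w.embedding))

omit [NumberField K] in
theorem cc (φ : K →+* ℂ) : ComplexEmbedding.conjugate (ComplexEmbedding.conjugate φ) = φ :=
  star_star φ

omit [NumberField K] in
theorem sy_mk (R : (K →+* ℂ) → ℝ) (φ : K →+* ℂ) :
    sy R (InfinitePlace.mk φ) = Real.sqrt (R φ * R (ComplexEmbedding.conjugate φ)) := by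
  unfold sy
  rcases InfinitePlace.mk_eq_iff.1 (InfinitePlace.mk_embedding (InfinitePlace.mk φ)) with h | h
  · rw [h]
  · have : (InfinitePlace.mk φ).embedding = ComplexEmbedding.conjugate φ := by
      rw [← cc (InfinitePlace.mk φ).embedding, h]
    rw [this, cc, mul_comm]

omit [NumberField K] in
theorem sy_pos {R : (K →+* ℂ) → ℝ} (hR : ∀ φ, 0 < R φ) (w : InfinitePlace K) : 0 < sy R w :=
  Real.sqrt_pos.2 (mul_pos (hR _) (hR _))

theorem prod_sy {R : (K →+* ℂ) → ℝ} (hR : ∀ φ, 0 < R φ) :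
    ∏ w, sy R w ^ w.mult = ∏ φ, R φ := by
  rw [← prod_emb]
  have h1 : ∏ φ : K →+* ℂ, sy R (InfinitePlace.mk φ) =
      ∏ φ : K →+* ℂ, Real.sqrt (R φ * R (ComplexEmbedding.conjugate φ)) :=
    Finset.prod_congr rfl fun φ _ => sy_mk R φ
  have h0 : ∏ φ : K →+* ℂ, R (ComplexEmbedding.conjugate φ) = ∏ φ, R φ := by
    refine Finset.prod_nbij' (fun φ => ComplexEmbedding.conjugate φ)
      (fun φ => ComplexEmbedding.conjugate φ) (by simp) (by simp) (fun φ _ => cc φ)
      (fun φ _ => cc φ) (fun φ _ => rfl)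
  have h2 : (∏ φ : K →+* ℂ, Real.sqrt (R φ * R (ComplexEmbedding.conjugate φ))) ^ 2 =
      (∏ φ, R φ) ^ 2 := by
    rw [← Finset.prod_pow, Finset.prod_congr rfl (g := fun φ => R φ *
      R (ComplexEmbedding.conjugate φ)) (fun φ _ => Real.sq_sqrt (mul_pos (hR _) (hR _)).le),
      Finset.prod_mul_distrib, h0, sq]
  rw [h1]
  exact (pow_left_inj₀ (Finset.prod_nonneg fun φ _ => Real.sqrt_nonneg _)
    (Finset.prod_nonneg fun φ _ => (hR φ).le) two_ne_zero).1 h2

omit [NumberField K] in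
theorem le_sy {R : (K →+* ℂ) → ℝ} (hR : ∀ φ, 0 < R φ) {x : K} (hx : ∀ φ : K →+* ℂ, ‖φ x‖ ≤ R φ)
    (w : InfinitePlace K) : w x ≤ sy R w := by
  rw [← InfinitePlace.norm_embedding_eq]
  refine Real.le_sqrt_of_sq_le ?_
  have h1 := hx w.embedding
  have h2 := hx (ComplexEmbedding.conjugate w.embedding)
  have h3 : ‖ComplexEmbedding.conjugate w.embedding x‖ = ‖w.embedding x‖ := by
    rw [ComplexEmbedding.conjugate_coe_eq, Complex.norm_conj]
  rw [h3] at h2
  rw [sq]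
  exact mul_le_mul h1 h2 (norm_nonneg _) (hR _).le

theorem nm_unit_mul (u : (𝓞 K)ˣ) (x : K) : nm (((u : 𝓞 K) : K) * x) = nm x := by
  rw [nm_prod, nm_prod]
  simp only [map_mul, mul_pow, Finset.prod_mul_distrib]
  rw [prod_unit, one_mul]

/-- (F1) -/
theorem box_card (K : Type) [Field K] [NumberField K] : ∃ C : ℝ, 0 < C ∧ ∀ ν : ℝ, 0 < ν →
    ∀ R : (K →+* ℂ) → ℝ, (∀ φ, 0 < R φ) →
    ∀ S : Finset K, (∀ x ∈ S, ∀ y ∈ S, x ≠ y → ν ≤ nm (x - y)) →
      (∀ x ∈ S, ∀ y ∈ S, ∀ φ : K →+* ℂ, ‖φ (x - y)‖ ≤ R φ) →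
      (S.card : ℝ) ≤ C * (1 + (∏ φ, R φ) / ν) := by
  classical
  obtain ⟨C1, hC1, h1⟩ := bal_up K
  refine ⟨2 ^ dg K * 3 ^ dg K * (2 ^ dg K * C1 ^ dg K), by positivity,
    fun ν hν R hR S hS1 hS2 => ?_⟩
  obtain ⟨u, hu⟩ := h1 (sy R) (sy_pos hR)
  have hu0 : ((u : 𝓞 K) : K) ≠ 0 := by
    simp
  have hL : 0 < C1 * gm K (sy R) := mul_pos (by linarith) (gm_pos (sy_pos hR))
  have h2 := pack_le hν hL (S.image fun x => ((u : 𝓞 K) : K) * x) (by
    intro x hx y hy hne
    obtain ⟨x', hx', rfl⟩ := Finset.mem_image.1 hx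
    obtain ⟨y', hy', rfl⟩ := Finset.mem_image.1 hy
    rw [← mul_sub, nm_unit_mul]
    exact hS1 _ hx' _ hy' fun h => hne (by rw [h])) (by
    intro x hx y hy w
    obtain ⟨x', hx', rfl⟩ := Finset.mem_image.1 hx
    obtain ⟨y', hy', rfl⟩ := Finset.mem_image.1 hy
    rw [← mul_sub, map_mul]
    exact (mul_le_mul_of_nonneg_left (le_sy hR (hS2 _ hx' _ hy') w) (apply_nonneg _ _)).trans
      (hu w))
  rw [Finset.card_image_of_injective _ (mul_right_injective₀ hu0), mul_pow,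
    gm_pow (sy_pos hR), prod_sy hR] at h2
  refine h2.trans ?_
  have hP : 0 ≤ (∏ φ, R φ) / ν := div_nonneg (Finset.prod_nonneg fun φ _ => (hR φ).le) hν.le
  have h3 : (1 : ℝ) ≤ 2 ^ dg K * C1 ^ dg K :=
    one_le_mul_of_one_le_of_one_le (one_le_pow₀ (by norm_num)) (one_le_pow₀ hC1)
  have h4 : 2 ^ dg K * (C1 ^ dg K * ∏ φ, R φ) / ν = 2 ^ dg K * C1 ^ dg K * ((∏ φ, R φ) / ν) := by
    ring
  rw [h4, mul_assoc (2 ^ dg K * 3 ^ dg K : ℝ)]
  refine mul_le_mul_of_nonneg_left ?_ (by positivity)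
  rw [mul_add, mul_one]
  linarith

/-- (F2) -/
theorem unit_bal (K : Type) [Field K] [NumberField K] (e : ℕ) (he : e ≠ 0) : ∃ C : ℝ, 0 < C ∧
    ∀ R : (K →+* ℂ) → ℝ, (∀ φ, 0 < R φ) →
    (∀ φ, R (NumberField.ComplexEmbedding.conjugate φ) = R φ) →
    ∃ ε : (𝓞 K)ˣ, ∀ φ : K →+* ℂ,
      ‖φ ((ε : 𝓞 K) : K)‖ ^ e * R φ ≤ C * (∏ ψ, R ψ) ^ (1 / (Module.finrank ℚ K : ℝ)) ∧
      (∏ ψ, R ψ) ^ (1 / (Module.finrank ℚ K : ℝ)) ≤ C * (‖φ ((ε : 𝓞 K) : K)‖ ^ e * R φ) := by
  classical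
  obtain ⟨C1, hC1, h1⟩ := bal_up K
  have he' : (0 : ℝ) < e := by exact_mod_cast Nat.pos_of_ne_zero he
  have hC1' : 0 < C1 := by linarith
  refine ⟨(C1 ^ dg K) ^ e, by positivity, fun R hR hc => ?_⟩
  set R' : (K →+* ℂ) → ℝ := fun φ => R φ ^ ((e : ℝ)⁻¹) with hR'
  have hR'0 : ∀ φ, 0 < R' φ := fun φ => Real.rpow_pos_of_pos (hR φ) _
  have hR'e : ∀ φ, R' φ ^ e = R φ := fun φ => by
    rw [hR', ← Real.rpow_natCast, ← Real.rpow_mul (hR φ).le, inv_mul_cancel₀ he'.ne',
      Real.rpow_one]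
  obtain ⟨u, hu⟩ := h1 (sy R') (sy_pos hR'0)
  set G : ℝ := gm K (sy R') with hG
  have hG0 : 0 < G := gm_pos (sy_pos hR'0)
  have hsy : ∀ φ : K →+* ℂ, sy R' (InfinitePlace.mk φ) = R' φ := fun φ => by
    rw [sy_mk, show R' (ComplexEmbedding.conjugate φ) = R' φ by simp only [hR', hc]]
    exact Real.sqrt_mul_self (hR'0 φ).le
  set g : (K →+* ℂ) → ℝ := fun φ => ‖φ ((u : 𝓞 K) : K)‖ * R' φ with hg
  have hg0 : ∀ φ, 0 < g φ := fun φ => mul_pos (norm_pos_iff.2 (by simp)) (hR'0 φ)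
  have hup : ∀ φ, g φ ≤ C1 * G := fun φ => by
    have := hu (InfinitePlace.mk φ)
    rwa [hsy, InfinitePlace.apply] at this
  have hprod : ∏ φ, g φ = G ^ dg K := by
    rw [hg, Finset.prod_mul_distrib]
    have h2 : ∏ φ : K →+* ℂ, ‖φ ((u : 𝓞 K) : K)‖ = 1 := by
      have := nm_unit_mul u (1 : K)
      rw [mul_one] at this
      have h3 : nm (1 : K) = 1 := by simp [nm]
      rw [h3] at this
      exact this
    rw [h2, one_mul, hG, gm_pow (sy_pos hR'0), prod_sy hR'0]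
  have hlow : ∀ φ, G ≤ C1 ^ dg K * g φ := fun φ => by
    have h2 : G ^ dg K = g φ * ∏ ψ ∈ Finset.univ.erase φ, g ψ := by
      rw [← hprod, Finset.mul_prod_erase _ _ (Finset.mem_univ _)]
    have h3 : ∏ ψ ∈ Finset.univ.erase φ, g ψ ≤ (C1 * G) ^ (dg K - 1) := by
      refine (Finset.prod_le_prod (fun ψ _ => (hg0 ψ).le) (fun ψ _ => hup ψ)).trans ?_
      rw [Finset.prod_const, Finset.card_erase_of_mem (Finset.mem_univ _), Finset.card_univ,
        card_emb]
    have h4 : G ^ dg K ≤ g φ * (C1 * G) ^ (dg K - 1) := by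
      rw [h2]
      exact mul_le_mul_of_nonneg_left h3 (hg0 φ).le
    obtain ⟨k, hk⟩ : ∃ k, dg K = k + 1 := ⟨dg K - 1, by have := dg_pos (K := K); omega⟩
    rw [hk, Nat.add_sub_cancel, mul_pow, pow_succ, mul_comm (C1 ^ k), ← mul_assoc,
      mul_comm (g φ), mul_assoc] at h4
    have h5 : G ≤ g φ * C1 ^ k := le_of_mul_le_mul_left h4 (pow_pos hG0 k)
    rw [hk, pow_succ]
    have h6 : 0 ≤ g φ * C1 ^ k := mul_nonneg (hg0 φ).le (by positivity)
    nlinarith
  have hGe : G ^ e = (∏ ψ, R ψ) ^ (1 / (Module.finrank ℚ K : ℝ)) := by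
    rw [hG, gm, prod_sy hR'0, ← Real.rpow_natCast, ← Real.rpow_mul
      (Finset.prod_nonneg fun φ _ => (hR'0 φ).le), mul_comm, Real.rpow_mul
      (Finset.prod_nonneg fun φ _ => (hR'0 φ).le), Real.rpow_natCast, ← Finset.prod_pow,
      Finset.prod_congr rfl (fun φ _ => hR'e φ), one_div]
  refine ⟨u, fun φ => ?_⟩
  have hge : g φ ^ e = ‖φ ((u : 𝓞 K) : K)‖ ^ e * R φ := by
    rw [hg, mul_pow, hR'e]
  rw [← hGe, ← hge, ← mul_pow, ← mul_pow]
  constructor
  · refine pow_le_pow_left₀ (hg0 φ).le ?_ e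
    refine (hup φ).trans (mul_le_mul_of_nonneg_right ?_ hG0.le)
    exact le_self_pow₀ hC1 dg_pos.ne'
  · exact pow_le_pow_left₀ hG0.le (hlow φ) e

end Pool.H63.W1
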