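import Pool.Agent.H63.W1.GeoA
import Pool.Agent.H38.ML.IdealCount

/-!
# Counting elements of bounded norm in boxes
-/

set_option autoImplicit false

namespace Pool.H63.W1

open NumberField NumberField.InfinitePlace NumberField.Units Module
open H88.A4

variable {K : Type} [Field K] [NumberField K]

/-- (F6) -/
theorem ideal_card (K : Type) [Field K] [NumberField K] : ∃ C : ℝ, 0 < C ∧ ∀ N : ℝ, 1 ≤ N →
    ∀ S : Finset (Ideal (𝓞 K)),
    (∀ I ∈ S, I ≠ ⊥ ∧ (Ideal.absNorm I : ℝ) ≤ N) → (S.card : ℝ) ≤ C * N := by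
  classical
  have hcb := H38.ML.cb_ideals K
  obtain ⟨C, hC, h⟩ := hcb.upper
  refine ⟨C, hC, fun N hN S hS => ?_⟩
  have h1 := h N hN
  rw [pow_zero, mul_one] at h1
  refine le_trans ?_ h1
  have hf := hcb.fin N
  have hfi : Finite {t : Ideal (𝓞 K) // t ≠ ⊥ ∧ ((Ideal.absNorm t : ℕ) : ℝ) ≤ N} := hf.to_subtype
  have h2 : S.card ≤ H38.ML.cnt (fun I : Ideal (𝓞 K) => I ≠ ⊥) (fun I => Ideal.absNorm I) N := by
    unfold H38.ML.cnt
    have h3 : Nat.card S = S.card := by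
      rw [Nat.card_eq_fintype_card, Fintype.card_coe]
    rw [← h3]
    exact Nat.card_le_card_of_injective (fun I : S => (⟨I.1, hS I.1 I.2⟩ :
      {t : Ideal (𝓞 K) // t ≠ ⊥ ∧ ((Ideal.absNorm t : ℕ) : ℝ) ≤ N}))
      (fun a b hab => Subtype.ext (congrArg (fun z => z.1) hab))
  exact_mod_cast h2

theorem lower {x : 𝓞 K} (hx : x ≠ 0) {H : ℝ} (hB : Bd H x) (φ : K →+* ℂ) :
    1 ≤ H ^ (dg K - 1) * ‖φ (x : K)‖ := by
  classical
  have h1 := nm_one_le x hx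
  unfold nm at h1
  rw [← Finset.mul_prod_erase _ _ (Finset.mem_univ φ)] at h1
  have h3 : ∏ ψ ∈ Finset.univ.erase φ, ‖ψ (x : K)‖ ≤ H ^ (dg K - 1) := by
    refine (Finset.prod_le_prod (fun ψ _ => norm_nonneg _) (fun ψ _ => hB ψ)).trans ?_
    rw [Finset.prod_const, Finset.card_erase_of_mem (Finset.mem_univ _), Finset.card_univ,
      card_emb]
  rw [mul_comm]
  exact h1.trans (mul_le_mul_of_nonneg_left h3 (norm_nonneg _))

theorem nm_le {x : 𝓞 K} {H : ℝ} (hB : Bd H x) : nm (x : K) ≤ H ^ dg K := by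
  unfold nm
  refine (Finset.prod_le_prod (fun ψ _ => norm_nonneg _) (fun ψ _ => hB ψ)).trans ?_
  rw [Finset.prod_const, Finset.card_univ, card_emb]

/-- associated elements in a box -/
theorem assoc_card (K : Type) [Field K] [NumberField K] : ∃ C : ℝ, 1 ≤ C ∧ ∀ H : ℝ, 1 ≤ H →
    ∀ S : Finset (𝓞 K), (∀ x ∈ S, x ≠ 0 ∧ Bd H x) →
      (∀ x ∈ S, ∀ y ∈ S, Ideal.span {x} = Ideal.span {y}) →
      (S.card : ℝ) ≤ C * (1 + Real.log H) ^ rank K := by
  classical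
  obtain ⟨C, hC, h⟩ := cnt_units K
  have hd := dg_pos (K := K)
  have hd1 : (1 : ℝ) ≤ dg K := by exact_mod_cast hd
  refine ⟨C * (dg K : ℝ) ^ rank K, one_le_mul_of_one_le_of_one_le hC (one_le_pow₀ hd1),
    fun H hH S hS hS2 => ?_⟩
  have hlog : 0 ≤ Real.log H := Real.log_nonneg hH
  rcases S.eq_empty_or_nonempty with rfl | ⟨x0, hx0⟩
  · simp only [Finset.card_empty, Nat.cast_zero]
    have : 0 < C := by linarith
    positivity
  obtain ⟨hf, hc⟩ := h (H ^ dg K) (one_le_pow₀ hH)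
  have hex : ∀ x : 𝓞 K, ∃ u : (𝓞 K)ˣ, x ∈ S → x0 * u = x := fun x => by
    by_cases hx : x ∈ S
    · obtain ⟨u, hu⟩ := Ideal.span_singleton_eq_span_singleton.1 (hS2 x0 hx0 x hx)
      exact ⟨u, fun _ => hu⟩
    · exact ⟨1, fun h => absurd h hx⟩
  choose U hU using hex
  have hmaps : ∀ x ∈ S, U x ∈ {u : (𝓞 K)ˣ | ∀ w : InfinitePlace K, w (u : K) ≤ H ^ dg K} := by
    intro x hx w
    have h1 := hU x hx
    have h2 := lower (hS x0 hx0).1 (hS x0 hx0).2 w.embedding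
    have h3 := (hS x hx).2 w.embedding
    rw [← h1, RingOfIntegers.coe_eq_algebraMap, map_mul, map_mul, norm_mul] at h3
    rw [← InfinitePlace.norm_embedding_eq]
    obtain ⟨k, hk⟩ : ∃ k, dg K = k + 1 := ⟨dg K - 1, by omega⟩
    rw [hk, Nat.add_sub_cancel] at h2
    rw [hk, pow_succ]
    have h4 : 0 ≤ ‖w.embedding ((U x : 𝓞 K) : K)‖ := norm_nonneg _
    calc ‖w.embedding ((U x : 𝓞 K) : K)‖ ≤ (H ^ k * ‖w.embedding (x0 : K)‖) *
          ‖w.embedding ((U x : 𝓞 K) : K)‖ := le_mul_of_one_le_left h4 h2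
      _ = H ^ k * (‖w.embedding (x0 : K)‖ * ‖w.embedding ((U x : 𝓞 K) : K)‖) := by ring
      _ ≤ H ^ k * H := mul_le_mul_of_nonneg_left h3 (by positivity)
  have hinj : Set.InjOn U S := by
    intro x hx y hy hxy
    rw [← hU x hx, ← hU y hy, hxy]
  have h5 : S.card ≤ {u : (𝓞 K)ˣ | ∀ w : InfinitePlace K, w (u : K) ≤ H ^ dg K}.ncard := by
    rw [← Set.ncard_coe_finset]
    exact Set.ncard_le_ncard_of_injOn U hmaps hinj hf
  calc (S.card : ℝ) ≤ _ := by exact_mod_cast h5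
    _ ≤ C * (1 + Real.log (H ^ dg K)) ^ rank K := hc
    _ ≤ C * ((dg K : ℝ) * (1 + Real.log H)) ^ rank K := by
        rw [Real.log_pow]
        refine mul_le_mul_of_nonneg_left (pow_le_pow_left₀ (by positivity) ?_ _) (by linarith)
        nlinarith
    _ = _ := by rw [mul_pow]; ring

/-- (F1') -/
theorem norm_card (K : Type) [Field K] [NumberField K] : ∃ (C : ℝ) (k : ℕ), 0 < C ∧
    ∀ N H : ℝ, 1 ≤ N → 1 ≤ H → ∀ S : Finset (𝓞 K),
    (∀ x ∈ S, x ≠ 0 ∧ nm (x : K) ≤ N ∧ Bd H x) →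
      (S.card : ℝ) ≤ C * N * (1 + Real.log H) ^ k := by
  classical
  obtain ⟨C1, hC1, h1⟩ := ideal_card K
  obtain ⟨C2, hC2, h2⟩ := assoc_card K
  refine ⟨C2 * C1, rank K, by positivity, fun N H hN hH S hS => ?_⟩
  have hlog : 0 ≤ Real.log H := Real.log_nonneg hH
  set B : ℝ := C2 * (1 + Real.log H) ^ rank K with hB
  have hB0 : 0 ≤ B := by positivity
  have h3 : S.card ≤ ⌊B⌋₊ * (S.image fun x => Ideal.span {x}).card := by
    refine Finset.card_le_mul_card_image _ _ fun I _ => ?_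
    refine Nat.le_floor ?_
    refine h2 H hH _ (fun x hx => ?_) (fun x hx y hy => ?_)
    · have := hS x (Finset.mem_filter.1 hx).1
      exact ⟨this.1, this.2.2⟩
    · rw [(Finset.mem_filter.1 hx).2, (Finset.mem_filter.1 hy).2]
  have h4 := h1 N hN (S.image fun x => Ideal.span {x}) (by
    intro I hI
    obtain ⟨x, hx, rfl⟩ := Finset.mem_image.1 hI
    refine ⟨fun h => (hS x hx).1 (Ideal.span_singleton_eq_bot.1 h), ?_⟩
    rw [← nm_absNorm]
    exact (hS x hx).2.1)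
  calc (S.card : ℝ) ≤ (⌊B⌋₊ : ℝ) * ((S.image fun x => Ideal.span {x}).card : ℝ) := by
        exact_mod_cast h3
    _ ≤ B * (C1 * N) := mul_le_mul (Nat.floor_le hB0) h4 (Nat.cast_nonneg _) hB0
    _ = _ := by rw [hB]; ring

/-- (F4) -/
theorem norm_sum (K : Type) [Field K] [NumberField K] (a : ℝ) (ha : 0 ≤ a) (ha' : a ≤ 1) :
    ∃ (C : ℝ) (k : ℕ), 0 < C ∧
    ∀ H : ℝ, 1 ≤ H → ∀ S : Finset (𝓞 K), (∀ x ∈ S, x ≠ 0 ∧ Bd H x) →
      ∑ x ∈ S, nm (x : K) ^ (-a) ≤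
        C * H ^ ((1 - a) * (Module.finrank ℚ K : ℝ)) * (1 + Real.log H) ^ k := by
  classical
  obtain ⟨C1, k1, hC1, h1⟩ := norm_card K
  have hd := dg_pos (K := K)
  have hd1 : (1 : ℝ) ≤ dg K := by exact_mod_cast hd
  refine ⟨2 * C1 * (2 * dg K), k1 + 1, by positivity, fun H hH S hS => ?_⟩
  have hlog : 0 ≤ Real.log H := Real.log_nonneg hH
  have hl2 : (1 : ℝ) / 2 ≤ Real.log 2 := by
    have := Real.log_two_gt_d9
    linarith
  set n : 𝓞 K → ℕ := fun x => Ideal.absNorm (Ideal.span {x}) with hn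
  have hnm : ∀ x : 𝓞 K, nm (x : K) = (n x : ℝ) := nm_absNorm
  set j : 𝓞 K → ℕ := fun x => Nat.log 2 (n x) with hj
  have hn1 : ∀ x ∈ S, n x ≠ 0 := fun x hx h => by
    have := nm_one_le x (hS x hx).1
    rw [hnm, h] at this
    norm_num at this
  have hjl : ∀ x ∈ S, (2 : ℝ) ^ j x ≤ nm (x : K) := fun x hx => by
    rw [hnm]
    exact_mod_cast Nat.pow_log_le_self 2 (hn1 x hx)
  have hju : ∀ x ∈ S, nm (x : K) ≤ 2 ^ (j x + 1) := fun x hx => by
    rw [hnm]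
    exact_mod_cast (Nat.lt_pow_succ_log_self (by norm_num) (n x)).le
  set J : ℕ := ⌊(dg K : ℝ) * Real.log H / Real.log 2⌋₊ with hJ
  have hpos2 : (0 : ℝ) < Real.log 2 := by linarith
  have hHd : 0 < H := by linarith
  have hjJ : ∀ x ∈ S, j x ∈ Finset.range (J + 1) := fun x hx => by
    rw [Finset.mem_range, Nat.lt_succ_iff]
    refine Nat.le_floor ?_
    rw [le_div_iff₀ hpos2, ← Real.log_pow, ← Real.log_pow]
    exact Real.log_le_log (by positivity) ((hjl x hx).trans (nm_le (hS x hx).2))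
  rw [← Finset.sum_fiberwise_of_maps_to hjJ]
  have hterm : ∀ i ∈ Finset.range (J + 1), ∑ x ∈ S with j x = i, nm (x : K) ^ (-a) ≤
      2 * C1 * (1 + Real.log H) ^ k1 * H ^ ((1 - a) * (dg K : ℝ)) := by
    intro i hi
    have h2p : (0 : ℝ) < 2 ^ i := by positivity
    have h2 : ∀ x ∈ S.filter (fun x => j x = i), nm (x : K) ^ (-a) ≤ ((2 : ℝ) ^ i) ^ (-a) := by
      intro x hx
      obtain ⟨hx1, hx2⟩ := Finset.mem_filter.1 hx
      have := hjl x hx1
      rw [hx2] at this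
      exact Real.rpow_le_rpow_of_nonpos h2p this (by linarith)
    have h3 := Finset.sum_le_card_nsmul _ _ _ h2
    rw [nsmul_eq_mul] at h3
    have h4 := h1 (2 ^ (i + 1)) H (one_le_pow₀ (by norm_num)) hH (S.filter (fun x => j x = i)) (by
      intro x hx
      obtain ⟨hx1, hx2⟩ := Finset.mem_filter.1 hx
      have := hju x hx1
      rw [hx2] at this
      exact ⟨(hS x hx1).1, this, (hS x hx1).2⟩)
    have h5 : (2 : ℝ) ^ i ≤ H ^ dg K := by
      have h6 : i ≤ J := Nat.lt_succ_iff.1 (Finset.mem_range.1 hi)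
      have h7 : (i : ℝ) ≤ (dg K : ℝ) * Real.log H / Real.log 2 := by
        have : (J : ℝ) ≤ (dg K : ℝ) * Real.log H / Real.log 2 := Nat.floor_le (by positivity)
        have h8 : (i : ℝ) ≤ J := by exact_mod_cast h6
        linarith
      rw [le_div_iff₀ hpos2, ← Real.log_pow, ← Real.log_pow] at h7
      exact (Real.log_le_log_iff h2p (by positivity)).1 h7
    have h8 : (2 : ℝ) ^ i * ((2 : ℝ) ^ i) ^ (-a) ≤ H ^ ((1 - a) * (dg K : ℝ)) := by
      have h9 : (2 : ℝ) ^ i * ((2 : ℝ) ^ i) ^ (-a) = ((2 : ℝ) ^ i) ^ (1 - a) := by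
        rw [sub_eq_add_neg, Real.rpow_add h2p, Real.rpow_one]
      rw [h9, mul_comm (1 - a), Real.rpow_mul hHd.le, Real.rpow_natCast]
      exact Real.rpow_le_rpow h2p.le h5 (by linarith)
    calc ∑ x ∈ S with j x = i, nm (x : K) ^ (-a) ≤ _ := h3
      _ ≤ C1 * 2 ^ (i + 1) * (1 + Real.log H) ^ k1 * ((2 : ℝ) ^ i) ^ (-a) :=
          mul_le_mul_of_nonneg_right h4 (by positivity)
      _ = 2 * C1 * (1 + Real.log H) ^ k1 * ((2 : ℝ) ^ i * ((2 : ℝ) ^ i) ^ (-a)) := by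
          rw [pow_succ]
          ring
      _ ≤ _ := mul_le_mul_of_nonneg_left h8 (by positivity)
  refine (Finset.sum_le_card_nsmul _ _ _ hterm).trans ?_
  rw [nsmul_eq_mul, Finset.card_range]
  have hJ2 : ((J + 1 : ℕ) : ℝ) ≤ 2 * dg K * (1 + Real.log H) := by
    push_cast
    have h6 : (J : ℝ) ≤ (dg K : ℝ) * Real.log H / Real.log 2 := Nat.floor_le (by positivity)
    have h7 : (dg K : ℝ) * Real.log H / Real.log 2 ≤ 2 * (dg K * Real.log H) := by
      rw [div_le_iff₀ hpos2]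
      have : 0 ≤ (dg K : ℝ) * Real.log H := by positivity
      nlinarith
    nlinarith
  have hX : 0 ≤ 2 * C1 * (1 + Real.log H) ^ k1 * H ^ ((1 - a) * (dg K : ℝ)) := by positivity
  calc ((J + 1 : ℕ) : ℝ) * (2 * C1 * (1 + Real.log H) ^ k1 * H ^ ((1 - a) * (dg K : ℝ)))
      ≤ (2 * dg K * (1 + Real.log H)) *
        (2 * C1 * (1 + Real.log H) ^ k1 * H ^ ((1 - a) * (dg K : ℝ))) :=
        mul_le_mul_of_nonneg_right hJ2 hX
    _ = _ := by rw [pow_succ]; ring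

end Pool.H63.W1
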